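import Pool.Agent.Y882.BT.Main
import Pool.Agent.W366.DC.SFX
import Pool.Agent.Y445.JRB.Buch

/-!
# The inequality of Brun and Titchmarsh at almost all positions, for every modulus

For an individual modulus `k` and an individual position the sieve has the level of distribution
`y / k`, and gives the constant `2`.  Here, for every modulus `k` and for all but few of the positions
`x = k (M + H)`, `M ≤ X`, with `y = k H`, the linear sieve is used with the level `X ^ t`, `1 / 2 ≤ t < 1`,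
however small `H` is.  For `H = X ^ θ` the constant `2` is thus replaced by `4 θ / (1 + θ) + δ` for
almost all positions, and by `4 θ + δ` for all but `X ^ (1 - θ + ε)` positions.
-/

set_option autoImplicit false

namespace Pool.Agent.Results.MP_26a8c3_nt.AlmostAllPositions

open Finset

/-- The number `N(x, y; k, l)` of the primes `p ≡ l` modulo `k` in the interval `(x - y, x]`. -/
def primeCount (x y k : ℕ) (l : ℤ) : ℕ :=
  ((Ioc (x - y) x).filter (fun p : ℕ => p.Prime ∧ (p : ℤ) ≡ l [ZMOD k])).card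

open Classical in
/-- **Brun–Titchmarsh at almost all positions.** Let `C ≥ 0`, `1 / 2 ≤ t < 1` and `δ, ε > 0`. For all large
`X`, all moduli `1 ≤ k ≤ X ^ C`, all `l` prime to `k` and all `1 ≤ H ≤ X ^ t`, the inequality
`N(k (M + H), k H; k, l) ≤ (2 / t + δ) k H / (φ(k) log X)` holds for all but at most `X ^ (2 t + ε) / H` of
the integers `1 ≤ M ≤ X`. -/
theorem result (C t δ ε : ℝ) (hC : 0 ≤ C) (ht1 : 1 / 2 ≤ t) (ht : t < 1) (hδ : 0 < δ) (hε : 0 < ε) :
    ∃ X₀ : ℕ, ∀ X : ℕ, X₀ ≤ X → ∀ (k : ℕ) (l : ℤ), 1 ≤ k → (k : ℝ) ≤ (X : ℝ) ^ C →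
      Int.gcd l k = 1 → ∀ H : ℕ, 1 ≤ H → (H : ℝ) ≤ (X : ℝ) ^ t →
      (((Icc 1 X).filter (fun M : ℕ =>
        (2 / t + δ) * (k * H / (Nat.totient k * Real.log X)) <
          (primeCount (k * (M + H)) (k * H) k l : ℝ))).card : ℝ) ≤
      (X : ℝ) ^ (2 * t + ε) / H := by
  obtain ⟨A0, F, f, hSF⟩ := Pool.Agent.W366.DC.SFX
  have hA : A0 = 2 * Real.exp Real.eulerMascheroniConstant :=
    Pool.Agent.Y882.JR.A0_eq Pool.Agent.Y445.JRB.t hSF
  obtain ⟨X₀, h⟩ := Pool.Agent.Y882.BT.main hSF hA C t δ ε hC ht1 ht hδ hε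
  refine ⟨X₀, fun X hX k l hk hkX hkl H hH hHX => ?_⟩
  refine le_trans (le_of_eq ?_) (h X hX k l hk hkX hkl H hH hHX)
  congr 2
  apply filter_congr
  intro M _
  have e1 : primeCount (k * (M + H)) (k * H) k l =
      Pool.Agent.Y882.BT.primesIn k l (k * M) (k * (M + H)) := by
    unfold primeCount Pool.Agent.Y882.BT.primesIn
    rw [show k * (M + H) - k * H = k * M by rw [mul_add, Nat.add_sub_cancel]]
  rw [e1]

end Pool.Agent.Results.MP_26a8c3_nt.AlmostAllPositions
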