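import Mathlib
import Pool.Agent.Y844.BT.Asm

/-!
# The Brun–Titchmarsh inequality with a constant smaller than two in the polynomial range

Primes in intervals and progressions, for `x ^ ε ≤ y / k ≤ x ^ (1 - ε)` and all moduli `k`.
-/

set_option autoImplicit false

namespace Pool.Agent.Results.MP_26a8c3_nt.PolynomialRange

/-- For every `ε` with `0 < ε ≤ 1/4` there is `x₀` such that, for all `x ≥ x₀`, all `y ≤ x`, all moduli
`k ≥ 1` and all integers `l` prime to `k` with `x ^ ε ≤ y / k ≤ x ^ (1 - ε)`, the number of primes in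
`(x - y, x]` congruent to `l` modulo `k` is smaller than `(2 - ε ^ 3 / 10 ^ 7) y / (φ(k) log (y / k))`. -/
theorem result :
    ∀ ε : ℝ, 0 < ε → ε ≤ 1 / 4 → ∃ x₀ : ℝ,
      ∀ k : ℕ, ∀ l : ℤ, ∀ x y : ℝ,
        1 ≤ k → y ≤ x → Int.gcd l (k : ℤ) = 1 → x₀ ≤ x →
        x ^ ε ≤ y / (k : ℝ) → y / (k : ℝ) ≤ x ^ (1 - ε) →
          (({p : ℕ | p.Prime ∧ x - y < (p : ℝ) ∧ (p : ℝ) ≤ x ∧
              (p : ℤ) ≡ l [ZMOD (k : ℤ)]}.ncard : ℕ) : ℝ) <
            (2 - ε ^ 3 / 10 ^ 7) * y / ((Nat.totient k : ℝ) * Real.log (y / (k : ℝ))) := by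
  intro ε hε hε1
  obtain ⟨δ, hδ, x₀, h⟩ := Pool.Agent.Y844.BT.asm ε hε hε1
  refine ⟨x₀, ?_⟩
  intro k l x y hk hyx hlk hx h1 h2
  obtain ⟨hx1, h3⟩ := h k l x y hx
  have hx0 : 0 ≤ x := by linarith
  have hk0 : (0 : ℝ) < k := by exact_mod_cast hk
  have hφ0 : (0 : ℝ) < Nat.totient k := by exact_mod_cast Nat.totient_pos.2 hk
  obtain ⟨h6, h7⟩ := h3 hk hyx (Int.isCoprime_iff_gcd_eq_one.2 hlk) h1 h2
  rw [Pool.Agent.Y844.BT.Pr_card k l x y hx0]
  have hlog : 0 < Real.log (y / k) := Real.log_pos h6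
  have h8 : (2 - ε ^ 3 / 10 ^ 7) * y / ((Nat.totient k : ℝ) * Real.log (y / (k : ℝ))) =
      (2 - ε ^ 3 / 10 ^ 7) * ((y / k) / Real.log (y / k)) * (k / Nat.totient k) := by
    field_simp
  rw [h8]
  refine lt_of_lt_of_le h7 ?_
  apply mul_le_mul_of_nonneg_right _ (by positivity)
  apply mul_le_mul_of_nonneg_right _ (by positivity)
  linarith

end Pool.Agent.Results.MP_26a8c3_nt.PolynomialRange
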