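import Pool.Agent.Results.MP_26a8c3_nt.AlmostAllPositions
import Pool.Agent.Y854.GM.WinV

/-!
# The inequality of Brun and Titchmarsh with a constant below 2 at all positions of given windows, for all moduli

Let `1 / 2 ≤ t < 1`, `0 < η ≤ κ < t`, `c ≥ 0`, `δ₀ < 2 - 2 κ / t`, let `v ≥ 1` be a sequence with exponent of convergence
at most `τ` (for `v_n = n ^ a` this is `1 / a`, for `v_n = b ^ n` or `n!` it is `0`) and `0 ≤ θ < 1`. For all `α > 0`
outside a set of Hausdorff dimension at most `(2 t - η + 2 c + τ) / (1 - θ)` and all but finitely many `n` the inequality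
`N(x, y; k, l) < (2 - δ₀) y / (φ(k) log (y / k))` holds for ALL moduli `k ≤ v_n ^ c`, ALL classes `l` prime to `k`, and
ALL real `x`, `y` with `v_n ^ η ≤ y / k ≤ v_n ^ κ` and `|(x - y) / k - α v_n| ≤ v_n ^ θ`.
-/

set_option autoImplicit false

open Finset Filter

namespace Pool.Agent.Results.MP_26a8c3_nt.PositionsInWindows

/-- the exponent of convergence of the sequence `v` is at most `τ` -/
def ExpLe (v : ℕ → ℝ) (τ : ℝ) : Prop := ∀ t : ℝ, τ < t → Summable (fun n : ℕ => (v n) ^ (-t))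

/-- The number `N(x, y; k, l)` of the primes `p ≡ l` modulo `k` in the interval `(x - y, x]`. -/
noncomputable def N (x y : ℝ) (k : ℕ) (l : ℤ) : ℕ :=
  {p : ℕ | p.Prime ∧ (p : ℤ) ≡ l [ZMOD k] ∧ x - y < p ∧ (p : ℝ) ≤ x}.ncard

open AlmostAllPositions (primeCount)

lemma N_le (x y : ℝ) (k : ℕ) (l : ℤ) (M H : ℕ) (h1 : (k : ℝ) * M ≤ x - y) (h2 : x ≤ (k : ℝ) * (M + H)) :
    N x y k l ≤ primeCount (k * (M + H)) (k * H) k l := by
  unfold N primeCount
  rw [show k * (M + H) - k * H = k * M by rw [mul_add, Nat.add_sub_cancel]]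
  rw [← Set.ncard_coe_finset]
  apply Set.ncard_le_ncard _ (Finset.finite_toSet _)
  rintro p ⟨hp1, hp2, hp3, hp4⟩
  rw [mem_coe, mem_filter, mem_Ioc]
  refine ⟨⟨?_, ?_⟩, hp1, hp2⟩
  · have h3 : ((k * M : ℕ) : ℝ) < p := by
      push_cast
      linarith
    exact_mod_cast h3
  · have h3 : (p : ℝ) ≤ ((k * (M + H) : ℕ) : ℝ) := by
      push_cast
      linarith
    exact_mod_cast h3

lemma primeCount_mod (x y k : ℕ) (l : ℤ) : primeCount x y k (l % k) = primeCount x y k l := by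
  unfold primeCount
  congr 1
  apply filter_congr
  intro p _
  have h1 : l % (k : ℤ) ≡ l [ZMOD k] := Int.mod_modEq l k
  constructor
  · rintro ⟨a, b⟩
    exact ⟨a, b.trans h1⟩
  · rintro ⟨a, b⟩
    exact ⟨a, b.trans h1.symm⟩

lemma primeCount_mono (k : ℕ) (l : ℤ) (M H H' : ℕ) (h : H ≤ H') :
    primeCount (k * (M + H)) (k * H) k l ≤ primeCount (k * (M + H')) (k * H') k l := by
  unfold primeCount
  rw [show k * (M + H) - k * H = k * M by rw [mul_add, Nat.add_sub_cancel],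
    show k * (M + H') - k * H' = k * M by rw [mul_add, Nat.add_sub_cancel]]
  apply card_le_card
  apply filter_subset_filter
  apply Ioc_subset_Ioc_right
  exact Nat.mul_le_mul_left _ (by omega)

/-- the exceptional positions -/
def Bad (t η c δ ρ v : ℝ) : Set ℕ :=
  {M : ℕ | 1 ≤ M ∧ ∃ (k : ℕ) (l : ℤ) (i : ℕ), 1 ≤ k ∧ (k : ℝ) ≤ v ^ c ∧ Int.gcd l k = 1 ∧
    v ^ η ≤ (⌈ρ ^ i⌉₊ : ℝ) ∧ (⌈ρ ^ i⌉₊ : ℝ) ≤ v ^ t ∧
    (2 / t + δ) * (k * (⌈ρ ^ i⌉₊ : ℝ) / (Nat.totient k * Real.log v)) <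
      (primeCount (k * (M + ⌈ρ ^ i⌉₊)) (k * ⌈ρ ^ i⌉₊) k l : ℝ)}

open Classical in
lemma count (t η c δ ρ : ℝ) (ht1 : 1 / 2 ≤ t) (ht : t < 1) (hc : 0 ≤ c) (hδ : 0 < δ) (hρ : 1 < ρ)
    (A : ℕ) (ε : ℝ) (hε : 0 < ε) : ∃ (C : ℝ) (v₀ : ℝ), ∀ v : ℝ, v₀ ≤ v →
      {M | M ∈ Bad t η c δ ρ v ∧ (M : ℝ) ≤ ((A : ℝ) + 1) * v}.Finite ∧
      ({M | M ∈ Bad t η c δ ρ v ∧ (M : ℝ) ≤ ((A : ℝ) + 1) * v}.ncard : ℝ) ≤ C * v ^ (2 * t - η + 2 * c + ε) := by
  obtain ⟨X₀, hX₀⟩ := AlmostAllPositions.result c t δ (ε / 2) hc ht1 ht hδ (by positivity)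
  have ht0 : 0 < t := by linarith
  have hlρ : 0 < Real.log ρ := Real.log_pos hρ
  set C1 : ℝ := 2 / (ε * Real.log ρ) + 1 with hC1
  refine ⟨2 * C1 * ((A : ℝ) + 2) ^ (2 * t + ε / 2), max X₀ 3, fun v hv => ?_⟩
  have hA0 : (0 : ℝ) ≤ A := Nat.cast_nonneg A
  have hv3 : 3 ≤ v := (le_max_right _ _).trans hv
  have hvX : (X₀ : ℝ) ≤ v := (le_max_left _ _).trans hv
  have hv1 : 1 ≤ v := by linarith
  have hv0 : 0 < v := by linarith
  set X : ℕ := ⌈((A : ℝ) + 1) * v⌉₊ with hX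
  have hXv : v ≤ X := by
    have h1 : ((A : ℝ) + 1) * v ≤ X := Nat.le_ceil _
    nlinarith
  have hXX : X₀ ≤ X := by
    have h1 : (X₀ : ℝ) ≤ X := hvX.trans hXv
    exact_mod_cast h1
  have hX2 : (X : ℝ) ≤ ((A : ℝ) + 2) * v := by
    have h1 : (X : ℝ) < ((A : ℝ) + 1) * v + 1 := Nat.ceil_lt_add_one (by positivity)
    nlinarith
  have hX0 : (0 : ℝ) < X := by linarith
  have hlv : 0 < Real.log v := Real.log_pos (by linarith)
  have hlX : Real.log v ≤ Real.log X := Real.log_le_log hv0 hXv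
  set K : ℕ := ⌊v ^ c⌋₊ with hK
  set I : ℕ := ⌊t * Real.log v / Real.log ρ⌋₊ with hI
  set P : Finset ((ℕ × ℕ) × ℕ) := (Icc 1 K ×ˢ range (K + 1)) ×ˢ range (I + 1) with hP
  set b : ℝ := (X : ℝ) ^ (2 * t + ε / 2) / v ^ η with hb
  have hb0 : 0 ≤ b := by positivity
  set G : (ℕ × ℕ) × ℕ → Finset ℕ := fun q => (Icc 1 X).filter (fun M : ℕ =>
    Int.gcd (q.1.2 : ℤ) q.1.1 = 1 ∧ v ^ η ≤ (⌈ρ ^ q.2⌉₊ : ℝ) ∧ (⌈ρ ^ q.2⌉₊ : ℝ) ≤ v ^ t ∧
    (2 / t + δ) * (q.1.1 * (⌈ρ ^ q.2⌉₊ : ℝ) / (Nat.totient q.1.1 * Real.log X)) <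
      (primeCount (q.1.1 * (M + ⌈ρ ^ q.2⌉₊)) (q.1.1 * ⌈ρ ^ q.2⌉₊) q.1.1 (q.1.2 : ℤ) : ℝ)) with hG
  have hGcard : ∀ q ∈ P, (G q).card ≤ ⌊b⌋₊ := by
    rintro ⟨⟨k, l⟩, i⟩ hq
    rw [hP, mem_product, mem_product, mem_Icc, mem_range, mem_range] at hq
    obtain ⟨⟨⟨hk1, hkK⟩, -⟩, -⟩ := hq
    apply Nat.le_floor
    by_cases hcond : Int.gcd (l : ℤ) k = 1 ∧ v ^ η ≤ (⌈ρ ^ i⌉₊ : ℝ) ∧ (⌈ρ ^ i⌉₊ : ℝ) ≤ v ^ t
    · obtain ⟨h1, h2, h3⟩ := hcond
      have hkv : (k : ℝ) ≤ v ^ c := (Nat.cast_le.2 hkK).trans (Nat.floor_le (by positivity))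
      have hkX : (k : ℝ) ≤ (X : ℝ) ^ c := hkv.trans (Real.rpow_le_rpow hv0.le hXv hc)
      have hHX : ((⌈ρ ^ i⌉₊ : ℕ) : ℝ) ≤ (X : ℝ) ^ t := h3.trans (Real.rpow_le_rpow hv0.le hXv ht0.le)
      have hvη : 0 < v ^ η := by positivity
      have hH0 : (0 : ℝ) < (⌈ρ ^ i⌉₊ : ℕ) := lt_of_lt_of_le hvη h2
      have hH1 : 1 ≤ ⌈ρ ^ i⌉₊ := by exact_mod_cast hH0
      have h4 := hX₀ X hXX k l hk1 hkX h1 ⌈ρ ^ i⌉₊ hH1 hHX
      have h5 : ((G ((k, l), i)).card : ℝ) ≤ (((Icc 1 X).filter (fun M : ℕ =>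
        (2 / t + δ) * (k * (⌈ρ ^ i⌉₊ : ℕ) / (Nat.totient k * Real.log X)) <
          (primeCount (k * (M + ⌈ρ ^ i⌉₊)) (k * ⌈ρ ^ i⌉₊) k (l : ℤ) : ℝ))).card : ℝ) := by
        apply Nat.cast_le.2
        apply card_le_card
        intro M hM
        rw [hG, mem_filter] at hM
        rw [mem_filter]
        exact ⟨hM.1, hM.2.2.2.2⟩
      refine h5.trans (h4.trans ?_)
      rw [hb]
      exact div_le_div_of_nonneg_left (by positivity) hvη h2
    · have h1 : G ((k, l), i) = ∅ := by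
        rw [hG]
        apply filter_eq_empty_iff.2
        rintro M - ⟨a, b, c, -⟩
        exact hcond ⟨a, b, c⟩
      rw [h1]
      simpa using hb0
  have hsub : {M | M ∈ Bad t η c δ ρ v ∧ (M : ℝ) ≤ ((A : ℝ) + 1) * v} ⊆ (P.biUnion G : Finset ℕ) := by
    rintro M ⟨⟨hM1, k, l, i, hk1, hkv, hgcd, hη, htt, hlt⟩, hMv⟩
    rw [mem_coe, mem_biUnion]
    have hk0 : (0 : ℤ) < k := by exact_mod_cast hk1
    have hl0 : 0 ≤ l % (k : ℤ) := Int.emod_nonneg _ hk0.ne'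
    have hl1 : l % (k : ℤ) < k := Int.emod_lt_of_pos _ hk0
    obtain ⟨l', hl'⟩ := Int.eq_ofNat_of_zero_le hl0
    have hkK : k ≤ K := Nat.le_floor hkv
    refine ⟨((k, l'), i), ?_, ?_⟩
    · rw [hP, mem_product, mem_product, mem_Icc, mem_range, mem_range]
      refine ⟨⟨⟨hk1, hkK⟩, ?_⟩, ?_⟩
      · rw [hl'] at hl1
        have : l' < k := by exact_mod_cast hl1
        show l' < K + 1
        omega
      · apply Nat.lt_succ_of_le
        apply Nat.le_floor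
        rw [le_div_iff₀ hlρ]
        have h1 : ρ ^ i ≤ v ^ t := (Nat.le_ceil _).trans htt
        have h2 := Real.log_le_log (by positivity) h1
        rw [Real.log_pow, Real.log_rpow hv0] at h2
        exact h2
    · rw [hG, mem_filter, mem_Icc]
      have hMX : M ≤ X := by
        have h1 : (M : ℝ) ≤ X := hMv.trans (Nat.le_ceil _)
        exact_mod_cast h1
      refine ⟨⟨hM1, hMX⟩, ?_, hη, htt, ?_⟩
      · show Int.gcd (l' : ℤ) k = 1
        have h1 : (l' : ℤ) = l % k := hl'.symm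
        rw [h1, Int.gcd_emod]
        exact hgcd
      · show (2 / t + δ) * (k * (⌈ρ ^ i⌉₊ : ℝ) / (Nat.totient k * Real.log X)) <
          (primeCount (k * (M + ⌈ρ ^ i⌉₊)) (k * ⌈ρ ^ i⌉₊) k (l' : ℤ) : ℝ)
        have h1 : (l' : ℤ) = l % k := hl'.symm
        rw [h1, primeCount_mod]
        refine lt_of_le_of_lt ?_ hlt
        have hφ : (0 : ℝ) < Nat.totient k := by exact_mod_cast Nat.totient_pos.2 hk1
        apply mul_le_mul_of_nonneg_left _ (by positivity)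
        apply div_le_div_of_nonneg_left (by positivity) (by positivity)
        exact mul_le_mul_of_nonneg_left hlX hφ.le
  refine ⟨(Finset.finite_toSet _).subset hsub, ?_⟩
  have h1 := Set.ncard_le_ncard hsub (Finset.finite_toSet _)
  rw [Set.ncard_coe_finset] at h1
  have h2 := h1.trans (card_biUnion_le_card_mul P G _ hGcard)
  rw [hP, card_product, card_product, Nat.card_Icc, card_range, card_range] at h2
  have h3 : ({M | M ∈ Bad t η c δ ρ v ∧ (M : ℝ) ≤ ((A : ℝ) + 1) * v}.ncard : ℝ) ≤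
      ((K : ℝ) * (K + 1) * (I + 1)) * (⌊b⌋₊ : ℝ) := by
    have h4 : ({M | M ∈ Bad t η c δ ρ v ∧ (M : ℝ) ≤ ((A : ℝ) + 1) * v}.ncard : ℝ) ≤
      (((K + 1 - 1) * (K + 1) * (I + 1) * ⌊b⌋₊ : ℕ) : ℝ) := by exact_mod_cast h2
    rw [Nat.add_sub_cancel] at h4
    push_cast at h4
    exact h4
  have hvc : 1 ≤ v ^ c := Real.one_le_rpow hv1 hc
  have hK1 : (K : ℝ) ≤ v ^ c := Nat.floor_le (by positivity)
  have hK2 : (K : ℝ) + 1 ≤ 2 * v ^ c := by linarith
  have hI1 : (I : ℝ) + 1 ≤ C1 * v ^ (ε / 2) := by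
    have h4 : (I : ℝ) ≤ t * Real.log v / Real.log ρ := Nat.floor_le (by positivity)
    have h5 : Real.log v ≤ v ^ (ε / 2) / (ε / 2) := Real.log_le_rpow_div hv0.le (by positivity)
    have h6 : (1 : ℝ) ≤ v ^ (ε / 2) := Real.one_le_rpow hv1 (by positivity)
    have h7 : t * Real.log v ≤ Real.log v := by nlinarith
    calc (I : ℝ) + 1 ≤ t * Real.log v / Real.log ρ + 1 := by linarith
      _ ≤ (v ^ (ε / 2) / (ε / 2)) / Real.log ρ + v ^ (ε / 2) := by
          apply add_le_add _ h6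
          apply div_le_div_of_nonneg_right _ hlρ.le
          exact h7.trans h5
      _ = C1 * v ^ (ε / 2) := by
          rw [hC1]
          field_simp
  have hb1 : (⌊b⌋₊ : ℝ) ≤ ((A : ℝ) + 2) ^ (2 * t + ε / 2) * v ^ (2 * t + ε / 2 - η) := by
    refine (Nat.floor_le hb0).trans ?_
    rw [hb, Real.rpow_sub hv0, mul_div_assoc', ← Real.mul_rpow (by positivity) hv0.le]
    apply div_le_div_of_nonneg_right _ (by positivity)
    exact Real.rpow_le_rpow hX0.le hX2 (by positivity)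
  calc ({M | M ∈ Bad t η c δ ρ v ∧ (M : ℝ) ≤ ((A : ℝ) + 1) * v}.ncard : ℝ)
      ≤ ((K : ℝ) * (K + 1) * (I + 1)) * (⌊b⌋₊ : ℝ) := h3
    _ ≤ (v ^ c * (2 * v ^ c) * (C1 * v ^ (ε / 2))) *
          (((A : ℝ) + 2) ^ (2 * t + ε / 2) * v ^ (2 * t + ε / 2 - η)) := by
        apply mul_le_mul _ hb1 (Nat.cast_nonneg _) (by positivity)
        apply mul_le_mul _ hI1 (by positivity) (by positivity)
        exact mul_le_mul hK1 hK2 (by positivity) (by positivity)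
    _ = 2 * C1 * ((A : ℝ) + 2) ^ (2 * t + ε / 2) *
          (v ^ c * v ^ c * v ^ (ε / 2) * v ^ (2 * t + ε / 2 - η)) := by ring
    _ = 2 * C1 * ((A : ℝ) + 2) ^ (2 * t + ε / 2) * v ^ (2 * t - η + 2 * c + ε) := by
        rw [← Real.rpow_add hv0, ← Real.rpow_add hv0, ← Real.rpow_add hv0]
        congr 2
        ring

/-- **Theorem.** Let `1 / 2 ≤ t < 1`, `0 < η ≤ κ < t`, `c ≥ 0`, `δ₀ < 2 - 2 κ / t`, `0 ≤ θ < 1`, and let `v ≥ 1` be a
sequence of exponent of convergence at most `τ ≥ 0`. There is a set `E` of Hausdorff dimension at most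
`(2 t - η + 2 c + τ) / (1 - θ)` such that for each `α > 0` outside `E` and all but finitely many `n` the inequality
`N(x, y; k, l) < (2 - δ₀) y / (φ(k) log (y / k))` holds for ALL moduli `k ≤ v_n ^ c`, ALL classes `l` prime to `k`, and
ALL real `x`, `y` with `v_n ^ η ≤ y / k ≤ v_n ^ κ` and `|(x - y) / k - α v_n| ≤ v_n ^ θ`. The sequences
`v_n = (n + 1) ^ a` and `v_n = b ^ n` have exponent of convergence at most `1 / a` and `0`. -/
theorem result :
    (∀ t η κ c δ₀ θ : ℝ, 1 / 2 ≤ t → t < 1 → 0 < η → η ≤ κ → κ < t → 0 ≤ c → δ₀ < 2 - 2 * κ / t → 0 ≤ θ → θ < 1 →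
      ∀ (v : ℕ → ℝ) (τ : ℝ), (∀ n, 1 ≤ v n) → 0 ≤ τ → ExpLe v τ →
      ∃ E : Set ℝ, dimH E ≤ ENNReal.ofReal ((2 * t - η + 2 * c + τ) / (1 - θ)) ∧
        ∀ α : ℝ, 0 < α → α ∉ E → ∃ n₀ : ℕ, ∀ n : ℕ, n₀ ≤ n → ∀ (k : ℕ) (l : ℤ) (x y : ℝ),
          1 ≤ k → (k : ℝ) ≤ (v n) ^ c → Int.gcd l k = 1 → (v n) ^ η ≤ y / k → y / k ≤ (v n) ^ κ →
          |(x - y) / k - α * v n| ≤ (v n) ^ θ →
            (N x y k l : ℝ) < (2 - δ₀) * y / (Nat.totient k * Real.log (y / k))) ∧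
    (∀ a : ℝ, 0 < a → ExpLe (fun n : ℕ => ((n : ℝ) + 1) ^ a) (1 / a)) ∧
    (∀ b : ℝ, 1 < b → ExpLe (fun n : ℕ => b ^ n) 0) := by
  refine ⟨fun t η κ c δ₀ θ ht1 ht hη hηκ hκ hc hδ₀ hθ hθ1 v τ hv hτ hE => ?_,
    fun κ hκ => Pool.Agent.Y854.GM.expLe_pow κ hκ, fun b hb => Pool.Agent.Y854.GM.expLe_geom b hb⟩
  have ht0 : 0 < t := by linarith
  have hκ0 : 0 < κ := by linarith
  have hvp : ∀ n, 0 < v n := fun n => lt_of_lt_of_le one_pos (hv n)
  have htv : Tendsto v atTop atTop := Pool.Agent.Y854.GM.tendsto_of_expLe hvp hτ hE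
  -- the constants
  set a : ℝ := (2 - δ₀) * t / (2 * κ) with ha
  have ha1 : 1 < a := by
    rw [ha, lt_div_iff₀ (by positivity)]
    have h1 : 2 * κ / t < 2 - δ₀ := by linarith
    rw [div_lt_iff₀ ht0] at h1
    linarith
  set β : ℝ := min 1 ((a - 1) / 8) with hβ
  have hβ0 : 0 < β := lt_min one_pos (by linarith)
  have hβ1 : β ≤ 1 := min_le_left _ _
  have hβ2 : β ≤ (a - 1) / 8 := min_le_right _ _
  have hβ3 : (1 + β) ^ 3 < a := by
    have h1 : 0 ≤ β * (1 - β) := mul_nonneg hβ0.le (sub_nonneg.2 hβ1)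
    have h2 : 0 ≤ β * β * (1 - β) := mul_nonneg (mul_nonneg hβ0.le hβ0.le) (sub_nonneg.2 hβ1)
    have h3 : (1 + β) ^ 3 = 1 + 7 * β - 4 * (β * (1 - β)) - β * β * (1 - β) := by ring
    linarith
  set ρ : ℝ := 1 + β with hρ
  set δ : ℝ := β * (2 / t) with hδ
  have hδ0 : 0 < δ := by positivity
  have hs0 : 0 ≤ 2 * t - η + 2 * c := by linarith
  obtain ⟨E, hE1, hE2⟩ := Pool.Agent.Y854.GM.windowsV (fun n => Bad t η c δ ρ (v n))
    (fun _ (M : ℕ) => (M : ℝ)) 2 hv hτ hE hs0 hθ1 (by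
      intro A ε hε
      obtain ⟨C, v₀, h⟩ := count t η c δ ρ ht1 ht hc hδ0 (by linarith) A ε hε
      obtain ⟨n₁, hn₁⟩ := (htv.eventually (eventually_ge_atTop v₀)).exists_forall_of_atTop
      exact ⟨C, n₁, fun n hn => h (v n) (hn₁ n hn)⟩)
  refine ⟨E, hE1, fun α hα hαE => ?_⟩
  obtain ⟨n₀, hn₀⟩ := hE2 α hα hαE
  have h1θ : 0 < 1 - θ := by linarith
  have hvθ : Tendsto (fun n => (v n) ^ (1 - θ)) atTop atTop := (tendsto_rpow_atTop h1θ).comp htv
  obtain ⟨M1, hM1⟩ := (hvθ.eventually (eventually_ge_atTop (3 / α))).exists_forall_of_atTop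
  have hvη : Tendsto (fun n => (v n) ^ η) atTop atTop := (tendsto_rpow_atTop hη).comp htv
  obtain ⟨M2, hM2⟩ := (hvη.eventually (eventually_ge_atTop (5 / β + 5))).exists_forall_of_atTop
  have hvt : Tendsto (fun n => (v n) ^ (t - κ)) atTop atTop := (tendsto_rpow_atTop (by linarith)).comp htv
  obtain ⟨M3, hM3⟩ := (hvt.eventually (eventually_ge_atTop 4)).exists_forall_of_atTop
  obtain ⟨M4, hM4⟩ := (htv.eventually (eventually_ge_atTop 3)).exists_forall_of_atTop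
  refine ⟨max n₀ (max (max M1 M2) (max M3 M4)), fun n hn k l x y hk hkc hgcd hy1 hy2 hxy => ?_⟩
  have hn0 : n₀ ≤ n := (le_max_left _ _).trans hn
  have hn' : max (max M1 M2) (max M3 M4) ≤ n := (le_max_right _ _).trans hn
  have hn1 : M1 ≤ n := (le_max_left _ _).trans ((le_max_left _ _).trans hn')
  have hn2 : M2 ≤ n := (le_max_right _ _).trans ((le_max_left _ _).trans hn')
  have hn3 : M3 ≤ n := (le_max_left _ _).trans ((le_max_right _ _).trans hn')
  have hn4 : M4 ≤ n := (le_max_right _ _).trans ((le_max_right _ _).trans hn')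
  have hv3 : 3 ≤ v n := hM4 n hn4
  have hk0 : (0 : ℝ) < k := by exact_mod_cast hk
  set z : ℝ := (x - y) / k with hz
  set u : ℝ := y / k with hu
  have hu5 : 5 / β + 5 ≤ u := (hM2 n hn2).trans hy1
  have h5β : 0 < 5 / β := by positivity
  have hu0 : 5 ≤ u := by linarith
  have hθpos : 1 ≤ (v n) ^ θ := Real.one_le_rpow (hv n) hθ
  have hαv : 3 * (v n) ^ θ ≤ α * v n := by
    have h2 := hM1 n hn1
    have h3 : (v n) ^ θ * (v n) ^ (1 - θ) = v n := by
      rw [← Real.rpow_add (hvp n)]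
      rw [show θ + (1 - θ) = 1 by ring, Real.rpow_one]
    have h4 : 3 ≤ α * (v n) ^ (1 - θ) := by
      calc (3 : ℝ) = α * (3 / α) := by field_simp
        _ ≤ α * (v n) ^ (1 - θ) := mul_le_mul_of_nonneg_left h2 hα.le
    calc 3 * (v n) ^ θ ≤ (α * (v n) ^ (1 - θ)) * (v n) ^ θ := mul_le_mul_of_nonneg_right h4 (by linarith)
      _ = α * ((v n) ^ θ * (v n) ^ (1 - θ)) := by ring
      _ = α * v n := by rw [h3]
  obtain ⟨hza, hzb⟩ := abs_le.1 hxy
  have hz1 : 2 ≤ z := by linarith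
  have hz0 : 0 ≤ z := by linarith
  have hxy' : x - y = k * z := by
    rw [hz]
    field_simp
  have hyk : y = k * u := by
    rw [hu]
    field_simp
  have hxk : x = k * (z + u) := by linarith [hxy', hyk, mul_add (k : ℝ) z u]
  set M : ℕ := ⌊z⌋₊ with hM
  have hMz : (M : ℝ) ≤ z := Nat.floor_le hz0
  have hMz2 : z < (M : ℝ) + 1 := Nat.lt_floor_add_one z
  have hMpos : 1 ≤ M := Nat.le_floor (by push_cast; linarith)
  -- the length
  set H : ℕ := ⌈u + 1⌉₊ with hH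
  have hH1 : u + 1 ≤ H := Nat.le_ceil _
  have hH2 : (H : ℝ) < u + 1 + 1 := Nat.ceil_lt_add_one (by linarith)
  obtain ⟨j, hj1, hj2⟩ := exists_nat_pow_near (show (1 : ℝ) ≤ H by linarith) (show 1 < ρ by linarith)
  set H' : ℕ := ⌈ρ ^ (j + 1)⌉₊ with hH'
  have hHH' : H ≤ H' := by
    have h1 : (H : ℝ) ≤ H' := hj2.le.trans (Nat.le_ceil _)
    exact_mod_cast h1
  have hH'2 : (H' : ℝ) ≤ ρ ^ 2 * u := by
    have h1 : (H' : ℝ) < ρ ^ (j + 1) + 1 := Nat.ceil_lt_add_one (by positivity)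
    have h2 : ρ ^ (j + 1) = ρ * ρ ^ j := by ring
    have h3 : ρ * ρ ^ j ≤ ρ * (u + 2) := by
      apply mul_le_mul_of_nonneg_left _ (by linarith)
      linarith
    have h4 : 5 + 5 * β ≤ β * u := by
      have := mul_le_mul_of_nonneg_left hu5 hβ0.le
      have h5 : β * (5 / β + 5) = 5 + 5 * β := by field_simp
      linarith
    have h5 : ρ ^ 2 * u = ρ * u + ρ * (β * u) := by
      rw [hρ]
      ring
    have h6 : 1 * (β * u) ≤ ρ * (β * u) := mul_le_mul_of_nonneg_right (by linarith) (by positivity)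
    rw [h5]
    have h7 : ρ * (u + 2) = ρ * u + 2 * ρ := by ring
    have h8 : ρ ≤ 2 := by linarith
    linarith
  have hηH : (v n) ^ η ≤ (H' : ℝ) := by
    have h1 : (H : ℝ) ≤ H' := by exact_mod_cast hHH'
    linarith
  have hHt : (H' : ℝ) ≤ (v n) ^ t := by
    have h1 : ρ ^ 2 ≤ 4 := by nlinarith
    have h2 : (v n) ^ t = (v n) ^ (t - κ) * (v n) ^ κ := by
      rw [← Real.rpow_add (hvp n)]
      congr 1
      ring
    calc (H' : ℝ) ≤ ρ ^ 2 * u := hH'2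
      _ ≤ 4 * (v n) ^ κ := mul_le_mul h1 hy2 (by linarith) (by norm_num)
      _ ≤ (v n) ^ (t - κ) * (v n) ^ κ :=
          mul_le_mul_of_nonneg_right (hM3 n hn3) (Real.rpow_nonneg (hvp n).le _)
      _ = (v n) ^ t := h2.symm
  have hnb : M ∉ Bad t η c δ ρ (v n) := by
    intro hbad
    have h1 := hn₀ n hn0 M hbad
    refine absurd h1 (not_lt.2 ?_)
    show |(M : ℝ) - α * v n| ≤ 2 * (v n) ^ θ
    rw [abs_le]
    constructor
    · linarith
    · linarith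
  have hmain : (primeCount (k * (M + H')) (k * H') k l : ℝ) ≤
      (2 / t + δ) * (k * (H' : ℝ) / (Nat.totient k * Real.log (v n))) := by
    by_contra hcon
    push Not at hcon
    exact hnb ⟨hMpos, k, l, j + 1, hk, hkc, hgcd, hηH, hHt, hcon⟩
  have hNle : (N x y k l : ℝ) ≤ (primeCount (k * (M + H')) (k * H') k l : ℝ) := by
    have h1 : N x y k l ≤ primeCount (k * (M + H)) (k * H) k l := by
      apply N_le
      · rw [hxy']
        exact mul_le_mul_of_nonneg_left hMz hk0.le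
      · rw [hxk]
        apply mul_le_mul_of_nonneg_left _ hk0.le
        linarith
    exact_mod_cast h1.trans (primeCount_mono k l M H H' hHH')
  have hφ : (0 : ℝ) < Nat.totient k := by exact_mod_cast Nat.totient_pos.2 hk
  have hlv : 0 < Real.log (v n) := Real.log_pos (by linarith)
  have hlu : 0 < Real.log u := Real.log_pos (by linarith)
  have hlu2 : Real.log u ≤ κ * Real.log (v n) := by
    have h1 := Real.log_le_log (by linarith : 0 < u) hy2
    rwa [Real.log_rpow (hvp n)] at h1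
  have h2t : 2 / t + δ = 2 / t * ρ := by
    rw [hδ, hρ]
    ring
  calc (N x y k l : ℝ) ≤ (2 / t + δ) * (k * (H' : ℝ) / (Nat.totient k * Real.log (v n))) := hNle.trans hmain
    _ ≤ (2 / t * ρ) * (k * (ρ ^ 2 * u) / (Nat.totient k * Real.log (v n))) := by
        rw [h2t]
        apply mul_le_mul_of_nonneg_left _ (by positivity)
        apply div_le_div_of_nonneg_right _ (by positivity)
        exact mul_le_mul_of_nonneg_left hH'2 hk0.le
    _ = (2 * κ / t) * ρ ^ 3 * (y / (Nat.totient k * (κ * Real.log (v n)))) := by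
        rw [hyk]
        field_simp
    _ < (2 * κ / t) * a * (y / (Nat.totient k * (κ * Real.log (v n)))) := by
        have hy0 : 0 < y := by
          rw [hyk]
          positivity
        apply mul_lt_mul_of_pos_right _ (by positivity)
        exact mul_lt_mul_of_pos_left hβ3 (by positivity)
    _ = (2 - δ₀) * (y / (Nat.totient k * (κ * Real.log (v n)))) := by
        rw [ha]
        field_simp
    _ ≤ (2 - δ₀) * (y / (Nat.totient k * Real.log u)) := by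
        have hy0 : 0 < y := by
          rw [hyk]
          positivity
        have hδ2 : 0 < 2 - δ₀ := by
          have : 0 < 2 * κ / t := by positivity
          linarith
        apply mul_le_mul_of_nonneg_left _ hδ2.le
        apply div_le_div_of_nonneg_left hy0.le (by positivity)
        exact mul_le_mul_of_nonneg_left hlu2 hφ.le
    _ = (2 - δ₀) * y / (Nat.totient k * Real.log u) := by ring

end Pool.Agent.Results.MP_26a8c3_nt.PositionsInWindows
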